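import Pool.Agent.Helper15.DAF.Stmts

/-!
# Row COORD of the project DAF (MP_c8969c_ag): the filtration of the delta module
-/

namespace Pool.Agent.Helper15.DAF

namespace C84

variable {K : Type} [Field K] [Algebra ℂ K] {B : Subalgebra ℂ K} {m : Set K}

theorem act_mul (P Q : Dop B) : act B m (P * Q) = act B m P * act B m Q := by
  refine LinearMap.ext fun z => ?_
  obtain ⟨R, rfl⟩ := Submodule.Quotient.mk_surjective _ z
  change cls B m (((P : Module.End ℂ K) * (Q : Module.End ℂ K)) * R) =
    cls B m ((P : Module.End ℂ K) * ((Q : Module.End ℂ K) * R))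
  rw [mul_assoc]

theorem act_add (P Q : Dop B) : act B m (P + Q) = act B m P + act B m Q := by
  refine LinearMap.ext fun z => ?_
  obtain ⟨R, rfl⟩ := Submodule.Quotient.mk_surjective _ z
  change cls B m (((P : Module.End ℂ K) + (Q : Module.End ℂ K)) * R) =
    cls B m ((P : Module.End ℂ K) * R + (Q : Module.End ℂ K) * R)
  rw [add_mul]

theorem act_const (c : ℂ) : act B m (algebraMap ℂ (Dop B) c) = c • 1 := by
  refine LinearMap.ext fun z => ?_
  obtain ⟨R, rfl⟩ := Submodule.Quotient.mk_surjective _ z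
  change cls B m ((algebraMap ℂ (Module.End ℂ K) c) * R) = cls B m (c • R)
  rw [← Algebra.smul_def]

theorem act_zero : act B m (0 : Dop B) = 0 := by
  refine LinearMap.ext fun z => ?_
  obtain ⟨R, rfl⟩ := Submodule.Quotient.mk_surjective _ z
  change cls B m ((0 : Module.End ℂ K) * R) = cls B m 0
  rw [zero_mul]

theorem act_sum {ι : Type} (s : Finset ι) (P : ι → Dop B) (z : Del B m) :
    act B m (∑ i ∈ s, P i) z = ∑ i ∈ s, act B m (P i) z := by
  classical
  induction s using Finset.induction_on with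
  | empty => rw [Finset.sum_empty, Finset.sum_empty, act_zero]; rfl
  | insert a s ha ih => rw [Finset.sum_insert ha, Finset.sum_insert ha, act_add, ← ih]; rfl

/-- multiplication as an element of `Dop B` -/
noncomputable def Mb {b : K} (hb : b ∈ B) : Dop B :=
  ⟨mulOp b, Algebra.subset_adjoin (Or.inl ⟨b, hb, rfl⟩)⟩

/-- a derivation as an element of `Dop B` -/
noncomputable def Md {d : Module.End ℂ K} (hd : d ∈ Der B) : Dop B :=
  ⟨d, Algebra.subset_adjoin (Or.inr hd)⟩

theorem comm_rel {b : K} (hb : b ∈ B) {d : Module.End ℂ K} (hd : d ∈ Der B) :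
    Md hd * Mb hb = Mb hb * Md hd + Mb (hd.2 b hb) := by
  apply Subtype.ext
  refine LinearMap.ext fun a => ?_
  change d (b * a) = b * d a + d b * a
  rw [hd.1 b a, mul_comm a]

theorem act_comm {b : K} (hb : b ∈ B) {d : Module.End ℂ K} (hd : d ∈ Der B) (z : Del B m) :
    act B m (Mb hb) (act B m (Md hd) z) =
      act B m (Md hd) (act B m (Mb hb) z) - act B m (Mb (hd.2 b hb)) z := by
  have h := congrArg (fun P => act B m P z) (comm_rel hb hd)
  simp only [act_mul, act_add] at h
  change act B m (Md hd) (act B m (Mb hb) z) =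
    act B m (Mb hb) (act B m (Md hd) z) + act B m (Mb (hd.2 b hb)) z at h
  rw [h]
  abel

theorem m_zero {b : K} (hm : Pt B m) (hb : b ∈ m) :
    act B m (Mb (hm.sub b hb)) (cls B m 1) = 0 := by
  change cls B m (mulOp b * 1) = 0
  apply (Submodule.Quotient.mk_eq_zero _).2
  apply Submodule.subset_span
  refine ⟨1, (Dop B).one_mem, b, hb, ?_⟩
  rw [mul_one, one_mul]

theorem b_one {b : K} (hm : Pt B m) (hb : b ∈ B) :
    ∃ c : ℂ, act B m (Mb hb) (cls B m 1) = c • cls B m 1 := by
  obtain ⟨c, hc⟩ := hm.res b hb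
  refine ⟨c, ?_⟩
  have h0 := m_zero hm hc
  change cls B m (mulOp (b - algebraMap ℂ K c) * 1) = 0 at h0
  change cls B m (mulOp b * 1) = c • cls B m 1
  have e : mulOp b * 1 = mulOp (b - algebraMap ℂ K c) * 1 + c • (1 : Module.End ℂ K) := by
    refine LinearMap.ext fun a => ?_
    change b * a = (b - algebraMap ℂ K c) * a + c • a
    rw [sub_mul, Algebra.smul_def]
    ring
  rw [e]
  change cls B m (mulOp (b - algebraMap ℂ K c) * 1) + c • cls B m 1 = c • cls B m 1
  rw [h0, zero_add]

variable {n : ℕ} {T : Fin n → Dop B}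

theorem fil_le (k : ℕ) : Fil B m T k ≤ Fil B m T (k + 1) := le_sup_left

theorem fil_mono {k l : ℕ} (h : k ≤ l) : Fil B m T k ≤ Fil B m T l :=
  monotone_nat_of_le_succ fil_le h

theorem fil_t (k : ℕ) (i : Fin n) {z : Del B m} (hz : z ∈ Fil B m T k) :
    act B m (T i) z ∈ Fil B m T (k + 1) :=
  (le_sup_right : _ ≤ Fil B m T (k + 1))
    ((le_iSup (fun i : Fin n => (Fil B m T k).map (act B m (T i))) i) ⟨z, hz, rfl⟩)

/-- to check a property of `F (k+1)` -/
theorem fil_succ (k : ℕ) (φ : Module.End ℂ (Del B m)) (W : Submodule ℂ (Del B m))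
    (h0 : ∀ z ∈ Fil B m T k, φ z ∈ W) (h1 : ∀ i, ∀ z ∈ Fil B m T k, φ (act B m (T i) z) ∈ W) :
    ∀ z ∈ Fil B m T (k + 1), φ z ∈ W := by
  have h : Fil B m T (k + 1) ≤ W.comap φ := by
    refine sup_le (fun z hz => h0 z hz) (iSup_le fun i => ?_)
    rintro _ ⟨z, hz, rfl⟩
    exact h1 i z hz
  exact fun z hz => h hz

end C84

open C84 in
theorem st_COORD : ST_COORD := by
  intro K _ _ B m n t y hm hc T hT
  obtain ⟨ht, hy, -, hder⟩ := hc
  have hTd : ∀ i, T i = Md (ht i) := fun i => Subtype.ext (hT i)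
  -- (1)
  have p1 : ∀ k, ∀ b (hb : b ∈ B), ∀ z ∈ Fil B m T k, act B m (Mb hb) z ∈ Fil B m T k := by
    intro k
    induction k with
    | zero =>
      intro b hb z hz
      obtain ⟨a, rfl⟩ := Submodule.mem_span_singleton.1 hz
      obtain ⟨c, hc⟩ := b_one hm hb
      rw [map_smul, hc]
      exact Submodule.smul_mem _ _ (Submodule.smul_mem _ _ (Submodule.mem_span_singleton_self _))
    | succ k ih =>
      intro b hb
      refine fil_succ k _ _ (fun z hz => fil_le k (ih b hb z hz)) (fun i z hz => ?_)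
      rw [hTd i, act_comm hb (ht i), ← hTd i]
      exact Submodule.sub_mem _ (fil_t k i (ih b hb z hz)) (fil_le k (ih _ _ z hz))
  -- (2)
  have p2 : ∀ b (hb : b ∈ m), ∀ z ∈ Fil B m T 0, act B m (Mb (hm.sub b hb)) z = 0 := by
    intro b hb z hz
    obtain ⟨a, rfl⟩ := Submodule.mem_span_singleton.1 hz
    rw [map_smul, m_zero hm hb, smul_zero]
  -- (3)
  have p3 : ∀ k, ∀ b (hb : b ∈ m), ∀ z ∈ Fil B m T (k + 1),
      act B m (Mb (hm.sub b hb)) z ∈ Fil B m T k := by
    intro k
    induction k with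
    | zero =>
      intro b hb
      refine fil_succ 0 _ _ (fun z hz => ?_) (fun i z hz => ?_)
      · rw [p2 b hb z hz]
        exact Submodule.zero_mem _
      · rw [hTd i, act_comm (hm.sub b hb) (ht i), p2 b hb z hz, map_zero, zero_sub]
        exact Submodule.neg_mem _ (p1 0 _ _ z hz)
    | succ k ih =>
      intro b hb
      refine fil_succ (k + 1) _ _ (fun z hz => p1 (k + 1) b (hm.sub b hb) z hz)
        (fun i z hz => ?_)
      rw [hTd i, act_comm (hm.sub b hb) (ht i), ← hTd i]
      exact Submodule.sub_mem _ (fil_t k i (ih b hb z hz)) (p1 (k + 1) _ _ z hz)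
  -- (4)
  have p4 : ∀ k, ∀ d (hd : d ∈ Der B), ∀ z ∈ Fil B m T k,
      act B m (Md hd) z ∈ Fil B m T (k + 1) := by
    intro k d hd z hz
    have e : Md hd = ∑ i, Mb (hd.2 (y i) (hy i)) * T i := by
      apply Subtype.ext
      rw [AddSubmonoidClass.coe_finsetSum]
      have e1 : ∀ i, ((Mb (hd.2 (y i) (hy i)) * T i : Dop B) : Module.End ℂ K) =
          mulOp (d (y i)) * t i := by
        intro i
        rw [← hT i]
        rfl
      simp only [e1]
      exact hder d hd
    rw [e, act_sum]
    refine Submodule.sum_mem _ fun i _ => ?_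
    rw [act_mul]
    exact p1 (k + 1) _ _ _ (fil_t k i hz)
  have hMb : ∀ b (hb : b ∈ B) (P : Dop B), (P : Module.End ℂ K) = mulOp b → P = Mb hb :=
    fun b hb P hP => Subtype.ext hP
  have hMd : ∀ d (hd : d ∈ Der B) (P : Dop B), (P : Module.End ℂ K) = d → P = Md hd :=
    fun d hd P hP => Subtype.ext hP
  refine ⟨?_, ?_, ?_, ?_, ?_, ?_, ?_⟩
  · intro k b hb P hP z hz
    rw [hMb b hb P hP]
    exact p1 k b hb z hz
  · intro b hb P hP z hz
    rw [hMb b (hm.sub b hb) P hP]
    exact p2 b hb z hz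
  · intro k b hb P hP z hz
    rw [hMb b (hm.sub b hb) P hP]
    exact p3 k b hb z hz
  · intro k d hd P hP z hz
    rw [hMd d hd P hP]
    exact p4 k d hd z hz
  · intro k b hb d hd P hP z hz
    have e : P = Mb (hm.sub b hb) * Md hd := Subtype.ext hP
    rw [e, act_mul]
    exact p3 k b hb _ (p4 k d hd z hz)
  · intro P
    have key : ∀ Q (hQ : Q ∈ Dop B), ∀ k, ∀ z ∈ Fil B m T k, ∃ l,
        act B m ⟨Q, hQ⟩ z ∈ Fil B m T l := by
      intro Q hQ
      induction hQ using Algebra.adjoin_induction with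
      | mem x hx =>
        intro k z hz
        rcases hx with ⟨b, hb, rfl⟩ | hd
        · exact ⟨k, p1 k b hb z hz⟩
        · exact ⟨k + 1, p4 k x hd z hz⟩
      | algebraMap r =>
        intro k z hz
        refine ⟨k, ?_⟩
        have e : act B m (algebraMap ℂ (Dop B) r) z ∈ Fil B m T k := by
          rw [act_const]
          exact Submodule.smul_mem _ _ hz
        exact e
      | add x x' hx hx' ih ih' =>
        intro k z hz
        obtain ⟨l, hl⟩ := ih k z hz
        obtain ⟨l', hl'⟩ := ih' k z hz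
        refine ⟨max l l', ?_⟩
        have e : act B m (⟨x, hx⟩ + ⟨x', hx'⟩) z ∈ Fil B m T (max l l') := by
          rw [act_add]
          exact Submodule.add_mem _ (fil_mono (le_max_left _ _) hl)
            (fil_mono (le_max_right _ _) hl')
        exact e
      | mul x x' hx hx' ih ih' =>
        intro k z hz
        obtain ⟨l, hl⟩ := ih' k z hz
        obtain ⟨l', hl'⟩ := ih l _ hl
        refine ⟨l', ?_⟩
        have e : act B m (⟨x, hx⟩ * ⟨x', hx'⟩) z ∈ Fil B m T l' := by
          rw [act_mul]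
          exact hl'
        exact e
    obtain ⟨l, hl⟩ := key P P.2 0 (cls B m 1) (Submodule.mem_span_singleton_self _)
    refine ⟨l, ?_⟩
    have e : act B m ⟨(P : Module.End ℂ K), P.2⟩ (cls B m 1) =
        cls B m ((P : Module.End ℂ K) * 1) := rfl
    rw [e, mul_one] at hl
    exact hl
  · intro k
    induction k with
    | zero => exact inferInstanceAs (FiniteDimensional ℂ (Submodule.span ℂ {cls B m 1}))
    | succ k ih =>
      have h1 : ∀ i : Fin n, FiniteDimensional ℂ ((Fil B m T k).map (act B m (T i))) :=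
        fun i => inferInstance
      exact inferInstanceAs (FiniteDimensional ℂ
        ((Fil B m T k ⊔ ⨆ i : Fin n, (Fil B m T k).map (act B m (T i)) : Submodule ℂ (Del B m))))

end Pool.Agent.Helper15.DAF
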