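import Pool.Agent.Helper15.DAF.Stmts2

/-!
# Row NAK of the project DAF (MP_c8969c_ag)
-/

namespace Pool.Agent.Helper15.DAF

namespace N84

variable {K : Type} [Field K] [Algebra ℂ K] {B : Subalgebra ℂ K} {m : Set K}

theorem mulOp_mul (a b : K) : mulOp (a * b) = mulOp a * mulOp b := by
  refine LinearMap.ext fun x => ?_
  change a * b * x = a * (b * x)
  rw [mul_assoc]

theorem mulOp_add (a b : K) : mulOp (a + b) = mulOp a + mulOp b := by
  refine LinearMap.ext fun x => ?_
  change (a + b) * x = a * x + b * x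
  rw [add_mul]

theorem mulOp_sub (a b : K) : mulOp (a - b) = mulOp a - mulOp b := by
  refine LinearMap.ext fun x => ?_
  change (a - b) * x = a * x - b * x
  rw [sub_mul]

theorem mulOp_zero : mulOp (0 : K) = 0 := by
  refine LinearMap.ext fun x => ?_
  change (0 : K) * x = 0
  rw [zero_mul]

theorem mulOp_one : mulOp (1 : K) = 1 := by
  refine LinearMap.ext fun x => ?_
  change (1 : K) * x = x
  rw [one_mul]

theorem mulOp_smul (c : ℂ) (a : K) : mulOp (c • a) = c • mulOp a := by
  refine LinearMap.ext fun x => ?_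
  change (c • a) * x = c • (a * x)
  rw [smul_mul_assoc]

theorem mulOp_sum {ι : Type} (s : Finset ι) (f : ι → K) :
    mulOp (∑ i ∈ s, f i) = ∑ i ∈ s, mulOp (f i) := by
  classical
  induction s using Finset.induction_on with
  | empty => rw [Finset.sum_empty, Finset.sum_empty, mulOp_zero]
  | insert a s ha ih => rw [Finset.sum_insert ha, Finset.sum_insert ha, mulOp_add, ih]

theorem smul_m (hm : Pt B m) (c : ℂ) {a : K} (ha : a ∈ m) : c • a ∈ m := by
  rw [Algebra.smul_def]
  exact hm.mul _ (B.algebraMap_mem c) _ ha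

/-- the ideal of the point -/
def ideal (hm : Pt B m) : Ideal B where
  carrier := {b | (b : K) ∈ m}
  add_mem' := fun ha hb => hm.add _ ha _ hb
  zero_mem' := hm.zero
  smul_mem' := fun c _ hx => hm.mul _ c.2 _ hx

theorem coeffs (hm : Pt B m) {n : ℕ} {t : Fin n → Module.End ℂ K} {y : Fin n → K}
    (hc : IsCoord B n t y) (e : Module.End ℂ K) (he : e ∈ Submodule.span ℂ
      {e : Module.End ℂ K | ∃ a ∈ m, ∃ d' ∈ Der B, e = mulOp a * d'}) :
    ∃ c : Fin n → K, (∀ j, c j ∈ m) ∧ e = ∑ j, mulOp (c j) * t j := by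
  induction he using Submodule.span_induction with
  | mem x hx =>
    obtain ⟨a, ha, d, hd, rfl⟩ := hx
    refine ⟨fun j => d (y j) * a, fun j => hm.mul _ (hd.2 _ (hc.2.1 j)) _ ha, ?_⟩
    have h := hc.2.2.2 d hd
    calc mulOp a * d = mulOp a * ∑ j, mulOp (d (y j)) * t j := by rw [← h]
      _ = ∑ j, mulOp (d (y j) * a) * t j := by
        rw [Finset.mul_sum]
        refine Finset.sum_congr rfl fun j _ => ?_
        rw [← mul_assoc, ← mulOp_mul, mul_comm a]
  | zero =>
    refine ⟨fun _ => 0, fun _ => hm.zero, ?_⟩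
    rw [eq_comm]
    refine Finset.sum_eq_zero fun j _ => ?_
    rw [mulOp_zero, zero_mul]
  | add x x' _ _ ih ih' =>
    obtain ⟨c, hc1, hc2⟩ := ih
    obtain ⟨c', hc1', hc2'⟩ := ih'
    refine ⟨fun j => c j + c' j, fun j => hm.add _ (hc1 j) _ (hc1' j), ?_⟩
    rw [hc2, hc2', ← Finset.sum_add_distrib]
    refine Finset.sum_congr rfl fun j _ => ?_
    rw [mulOp_add, add_mul]
  | smul r x _ ih =>
    obtain ⟨c, hc1, hc2⟩ := ih
    refine ⟨fun j => r • c j, fun j => smul_m hm r (hc1 j), ?_⟩
    rw [hc2, Finset.smul_sum]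
    refine Finset.sum_congr rfl fun j _ => ?_
    rw [mulOp_smul, smul_mul_assoc]

end N84

open N84 in
theorem st_NAK : ST_NAK := by
  classical
  intro K _ _ B m n t y hm hc g0 hg0 hgen
  have hti := hc.1
  choose v hv e he hve using fun i => hgen (t i) (hti i)
  choose M hM hMe using fun i => coeffs hm hc (e i) (he i)
  let A : Matrix (Fin n) (Fin n) B :=
    Matrix.of fun i j => (if i = j then 1 else 0) - ⟨M i j, hm.sub _ (hM i j)⟩
  have hA : ∀ i j, ((A i j : B) : K) = (if i = j then 1 else 0) - M i j := by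
    intro i j
    change (((if i = j then (1 : B) else 0) - ⟨M i j, hm.sub _ (hM i j)⟩ : B) : K) = _
    split_ifs <;> rfl
  have hvA : ∀ i, v i = ∑ j, mulOp ((A i j : B) : K) * t j := by
    intro i
    have h1 : v i = t i - e i := by rw [hve i]; abel
    have h2 : ∑ j, mulOp ((A i j : B) : K) * t j =
        ∑ j, mulOp (if i = j then (1 : K) else 0) * t j - ∑ j, mulOp (M i j) * t j := by
      rw [← Finset.sum_sub_distrib]
      refine Finset.sum_congr rfl fun j _ => ?_
      rw [hA, mulOp_sub, sub_mul]
    have h3 : ∑ j, mulOp (if i = j then (1 : K) else 0) * t j = t i := by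
      rw [Finset.sum_eq_single i]
      · rw [if_pos rfl, mulOp_one, one_mul]
      · intro j _ hj
        rw [if_neg (Ne.symm hj), mulOp_zero, zero_mul]
      · intro h
        exact absurd (Finset.mem_univ i) h
    rw [h1, h2, h3, ← hMe i]
  have hadj : A.adjugate * A = A.det • (1 : Matrix (Fin n) (Fin n) B) := Matrix.adjugate_mul A
  have hht : ∀ i, mulOp ((A.det : B) : K) * t i =
      ∑ j, mulOp ((A.adjugate i j : B) : K) * v j := by
    intro i
    have h1 : ∀ k, ∑ j, ((A.adjugate i j : B) : K) * ((A j k : B) : K) =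
        if i = k then ((A.det : B) : K) else 0 := by
      intro k
      have h2 := congrFun (congrFun hadj i) k
      rw [Matrix.mul_apply, Matrix.smul_apply, Matrix.one_apply] at h2
      have h3 := congrArg (fun x : B => (x : K)) h2
      simp only [AddSubmonoidClass.coe_finsetSum, MulMemClass.coe_mul] at h3
      rw [h3]
      split_ifs
      · rw [smul_eq_mul, mul_one]
      · rw [smul_zero]; rfl
    calc mulOp ((A.det : B) : K) * t i
        = ∑ k, mulOp (if i = k then ((A.det : B) : K) else 0) * t k := by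
          rw [Finset.sum_eq_single i]
          · rw [if_pos rfl]
          · intro j _ hj
            rw [if_neg (Ne.symm hj), mulOp_zero, zero_mul]
          · intro h
            exact absurd (Finset.mem_univ i) h
      _ = ∑ k, (∑ j, mulOp ((A.adjugate i j : B) : K) * mulOp ((A j k : B) : K)) * t k := by
          refine Finset.sum_congr rfl fun k _ => ?_
          rw [← h1 k, mulOp_sum]
          simp only [mulOp_mul]
      _ = ∑ j, mulOp ((A.adjugate i j : B) : K) * v j := by
          simp only [Finset.sum_mul]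
          rw [Finset.sum_comm]
          refine Finset.sum_congr rfl fun j _ => ?_
          rw [hvA j, Finset.mul_sum]
          refine Finset.sum_congr rfl fun k _ => ?_
          rw [mul_assoc]
  refine ⟨((A.det : B) : K), (A.det).2, ?_, ?_⟩
  · intro hmem
    let I := ideal hm
    have h1 : A.det ∈ I := hmem
    have h2 : (Ideal.Quotient.mk I) A.det = 0 := Ideal.Quotient.eq_zero_iff_mem.2 h1
    have h3 : (Ideal.Quotient.mk I).mapMatrix A = 1 := by
      ext i j
      rw [RingHom.mapMatrix_apply, Matrix.map_apply]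
      have h4 : (Ideal.Quotient.mk I) ⟨M i j, hm.sub _ (hM i j)⟩ = 0 :=
        Ideal.Quotient.eq_zero_iff_mem.2 (hM i j)
      change (Ideal.Quotient.mk I) ((if i = j then 1 else 0) - ⟨M i j, hm.sub _ (hM i j)⟩) = _
      rw [map_sub, h4, sub_zero, Matrix.one_apply]
      split_ifs
      · exact map_one _
      · exact map_zero _
    rw [RingHom.map_det, h3, Matrix.det_one] at h2
    have h5 : (1 : B) ∈ I := by
      rw [← Ideal.Quotient.eq_zero_iff_mem, map_one]
      exact h2
    exact hm.one h5
  · intro d hd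
    have h1 := hc.2.2.2 d hd
    have h2 : mulOp ((A.det : B) : K) * d =
        ∑ i, ∑ j, mulOp (d (y i) * ((A.adjugate i j : B) : K)) * v j := by
      calc mulOp ((A.det : B) : K) * d
          = mulOp ((A.det : B) : K) * ∑ i, mulOp (d (y i)) * t i := by rw [← h1]
        _ = ∑ i, mulOp (d (y i)) * (mulOp ((A.det : B) : K) * t i) := by
            rw [Finset.mul_sum]
            refine Finset.sum_congr rfl fun i _ => ?_
            rw [← mul_assoc, ← mul_assoc, ← mulOp_mul, ← mulOp_mul, mul_comm]
        _ = ∑ i, ∑ j, mulOp (d (y i) * ((A.adjugate i j : B) : K)) * v j := by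
            refine Finset.sum_congr rfl fun i _ => ?_
            rw [hht i, Finset.mul_sum]
            refine Finset.sum_congr rfl fun j _ => ?_
            rw [mulOp_mul, mul_assoc]
    rw [h2]
    refine Submodule.sum_mem _ fun i _ => Submodule.sum_mem _ fun j _ =>
      Submodule.subset_span ⟨_, ?_, v j, hv j, rfl⟩
    exact B.mul_mem (hd.2 _ (hc.2.1 i)) (A.adjugate i j).2

end Pool.Agent.Helper15.DAF
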